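/-
MP_33c730_lc (helper20): guarded second-order logic. Definitions only.
-/
import Pool.Agent.Lib.MP_33c730_lc.Defs

set_option autoImplicit false

namespace Pool.MP_33c730_lc

open FirstOrder.Language FirstOrder.Language.Structure

/-- The truth value of a first-order formula over the vocabulary `L` and `≤` with the free variables
`α` in the ordered structure `(M, o)`. -/
def RealizeO (L : FirstOrder.Language.{0, 0}) {α : Type} (φ : (L.sum FirstOrder.Language.order).Formula α) (M : Type)
    [L.Structure M] (o : LinearOrder M) (v : α → M) : Prop :=
  letI : FirstOrder.Language.order.Structure M := @orderStructure M o.toLE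
  φ.Realize v

/-- A first-order formula over `L` and `≤` is order-invariant if in every finite `L`-structure and
for all values of its free variables the truth value does not depend on the linear order. -/
def OrdInv (L : FirstOrder.Language.{0, 0}) {α : Type} (φ : (L.sum FirstOrder.Language.order).Formula α) : Prop :=
  ∀ (M : Type) [Finite M] [L.Structure M] (o₁ o₂ : LinearOrder M) (v : α → M),
    RealizeO L φ M o₁ v ↔ RealizeO L φ M o₂ v

/-- A tuple of elements of an `L`-structure is guarded if all its entries are equal, or if they are
entries of one tuple which belongs to a relation of the structure. -/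
def Guarded (L : FirstOrder.Language.{0, 0}) {M : Type} [L.Structure M] {n : ℕ} (t : Fin n → M) : Prop :=
  (∃ a, ∀ i, t i = a) ∨
    ∃ (m : ℕ) (R : L.Relations m) (u : Fin m → M), RelMap R u ∧ Set.range t ⊆ Set.range u

/-- Formulas of guarded second-order logic over the relational vocabulary `L` (no order) with free
element variables in `α` and free relation variables in `β`. -/
inductive GSO (L : FirstOrder.Language.{0, 0}) : Type → Type → Type 1
  | eq {α β : Type} (i j : α) : GSO L α β
  | rel {α β : Type} {n : ℕ} (R : L.Relations n) (x : Fin n → α) : GSO L α β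
  | app {α β : Type} {n : ℕ} (X : β) (x : Fin n → α) : GSO L α β
  | neg {α β : Type} (f : GSO L α β) : GSO L α β
  | and {α β : Type} (f g : GSO L α β) : GSO L α β
  | ex {α β : Type} (f : GSO L (Option α) β) : GSO L α β
  | exR {α β : Type} (n : ℕ) (f : GSO L α (Option β)) : GSO L α β

/-- Semantics: the element variables have values in `M`, the value of a relation variable is a
relation of some arity on `M`, and the quantifier `exR n` ranges over the `n`-ary relations all of
whose tuples are guarded. -/
def GSO.Sat {L : FirstOrder.Language.{0, 0}} (M : Type) [L.Structure M] :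
    {α β : Type} → GSO L α β → (α → M) → (β → Σ n, Set (Fin n → M)) → Prop
  | _, _, .eq i j, v, _ => v i = v j
  | _, _, .rel R x, v, _ => RelMap R fun k => v (x k)
  | _, _, .app (n := n) X x, v, S => ∃ Z : Set (Fin n → M), S X = ⟨n, Z⟩ ∧ (fun k => v (x k)) ∈ Z
  | _, _, .neg f, v, S => ¬ GSO.Sat M f v S
  | _, _, .and f g, v, S => GSO.Sat M f v S ∧ GSO.Sat M g v S
  | _, _, .ex f, v, S => ∃ x, GSO.Sat M f (ext x v) S
  | _, _, .exR n f, v, S => ∃ Z : Set (Fin n → M), (∀ t ∈ Z, Guarded L t) ∧
      GSO.Sat M f v (ext ⟨n, Z⟩ S)

end Pool.MP_33c730_lc
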