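/-
MP_33c730_lc (helper20): first-order formulas over a relational vocabulary in the incidence graph.
-/
import Pool.Agent.Lib.MP_33c730_lc.Gs.Defs

set_option autoImplicit false

namespace Pool.MP_33c730_lc

open FirstOrder.Language FirstOrder.Language.Structure

/-! ### renaming and blocks of quantifiers -/

theorem ext_comp {α β X : Type} (x : X) (v : β → X) (f : α → β) :
    (fun i => ext x v (Option.map f i)) = ext x fun i => v (f i) := by
  funext i
  cases i <;> rfl

/-- renaming of the variables. -/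
def FO.map {C : Type} : {α β : Type} → (α → β) → FO C α → FO C β
  | _, _, f, .eq i j => .eq (f i) (f j)
  | _, _, f, .adj i j => .adj (f i) (f j)
  | _, _, f, .lt i j => .lt (f i) (f j)
  | _, _, f, .col c i => .col c (f i)
  | _, _, f, .neg g => .neg (FO.map f g)
  | _, _, f, .and g h => .and (FO.map f g) (FO.map f h)
  | _, _, f, .ex g => .ex (FO.map (Option.map f) g)

theorem FO.map_sat {C V : Type} (G : CG C V) (lt : V → V → Prop) {α : Type} (φ : FO C α) :
    ∀ {β : Type} (f : α → β) (v : β → V),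
      (FO.map f φ).Sat G lt v ↔ φ.Sat G lt fun i => v (f i) := by
  induction φ with
  | eq i j => intros; exact Iff.rfl
  | adj i j => intros; exact Iff.rfl
  | lt i j => intros; exact Iff.rfl
  | col c i => intros; exact Iff.rfl
  | neg g ih => intro β f v; exact not_congr (ih f v)
  | and g h ih1 ih2 => intro β f v; exact and_congr (ih1 f v) (ih2 f v)
  | ex g ih =>
    intro β f v
    refine exists_congr fun x => ?_
    rw [ih, ext_comp]

theorem FO.exBlock (C : Type) (ι : Type) [Finite ι] : ∀ (γ : Type) (g : FO C (γ ⊕ ι)),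
    ∃ g' : FO C γ, ∀ (V : Type) (G : CG C V) (lt : V → V → Prop) (v : γ → V),
      g'.Sat G lt v ↔ ∃ u : ι → V, g.Sat G lt (Sum.elim v u) := by
  refine Finite.induction_empty_option (P := fun ι : Type => ∀ (γ : Type) (g : FO C (γ ⊕ ι)),
    ∃ g' : FO C γ, ∀ (V : Type) (G : CG C V) (lt : V → V → Prop) (v : γ → V),
      g'.Sat G lt v ↔ ∃ u : ι → V, g.Sat G lt (Sum.elim v u)) ?_ ?_ ?_ ι
  · intro α β e h γ g
    obtain ⟨g', hg'⟩ := h γ (FO.map (Sum.map id e.symm) g)
    refine ⟨g', fun V G lt v => ?_⟩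
    rw [hg']
    constructor
    · rintro ⟨u, hu⟩
      rw [FO.map_sat] at hu
      refine ⟨fun b => u (e.symm b), ?_⟩
      convert hu using 1
      funext i
      rcases i with i | i <;> rfl
    · rintro ⟨u, hu⟩
      refine ⟨fun a => u (e a), ?_⟩
      rw [FO.map_sat]
      convert hu using 1
      funext i
      rcases i with i | i
      · rfl
      · simp
  · intro γ g
    refine ⟨FO.map (Sum.elim id PEmpty.elim) g, fun V G lt v => ?_⟩
    rw [FO.map_sat]
    constructor
    · intro h
      refine ⟨PEmpty.elim, ?_⟩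
      convert h using 1
      funext i
      rcases i with i | i
      · rfl
      · exact i.elim
    · rintro ⟨u, hu⟩
      convert hu using 1
      funext i
      rcases i with i | i
      · rfl
      · exact i.elim
  · intro α _ h γ g
    obtain ⟨g', hg'⟩ := h (Option γ) (FO.map (Sum.elim (fun c => .inl (some c))
      (fun a => match a with | none => .inl none | some a => .inr a)) g)
    refine ⟨.ex g', fun V G lt v => ?_⟩
    constructor
    · rintro ⟨x, hx⟩
      rw [hg'] at hx
      obtain ⟨u, hu⟩ := hx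
      rw [FO.map_sat] at hu
      refine ⟨ext x u, ?_⟩
      convert hu using 1
      funext i
      rcases i with i | i | i <;> rfl
    · rintro ⟨u, hu⟩
      refine ⟨u none, ?_⟩
      rw [hg']
      refine ⟨fun a => u (some a), ?_⟩
      rw [FO.map_sat]
      convert hu using 1
      funext i
      rcases i with i | i | i <;> rfl

/-- a conjunction over a finite type. -/
theorem FO.allFin (C : Type) (γ : Type) (ι : Type) [Finite ι] (g : ι → FO C γ) (x₀ : FO C γ)
    (h₀ : ∀ (V : Type) (G : CG C V) (lt : V → V → Prop) (v : γ → V), x₀.Sat G lt v) :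
    ∃ g' : FO C γ, ∀ (V : Type) (G : CG C V) (lt : V → V → Prop) (v : γ → V),
      g'.Sat G lt v ↔ ∀ i, (g i).Sat G lt v := by
  refine Finite.induction_empty_option (P := fun ι : Type => ∀ g : ι → FO C γ,
    ∃ g' : FO C γ, ∀ (V : Type) (G : CG C V) (lt : V → V → Prop) (v : γ → V),
      g'.Sat G lt v ↔ ∀ i, (g i).Sat G lt v) ?_ ?_ ?_ ι g
  · intro α β e h g
    obtain ⟨g', hg'⟩ := h fun a => g (e a)
    refine ⟨g', fun V G lt v => ?_⟩
    rw [hg', e.forall_congr_left]
    simp
  · intro g
    exact ⟨x₀, fun V G lt v => ⟨fun _ i => i.elim, fun _ => h₀ V G lt v⟩⟩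
  · intro α _ h g
    obtain ⟨g', hg'⟩ := h fun a => g (some a)
    refine ⟨.and (g none) g', fun V G lt v => ?_⟩
    rw [Option.forall]
    exact and_congr Iff.rfl (hg' V G lt v)

/-- the true formula. -/
def FO.tt {C γ : Type} : FO C γ := .neg (.ex (.neg (.eq none none)))

theorem FO.tt_sat {C γ : Type} (V : Type) (G : CG C V) (lt : V → V → Prop) (v : γ → V) :
    (FO.tt : FO C γ).Sat G lt v := fun ⟨_, hx⟩ => hx rfl

/-! ### the vocabulary of the incidence graph -/

/-- the kinds of the vertices of the incidence graph: elements, tuples, positions of tuples. -/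
inductive Role (L : FirstOrder.Language.{0, 0}) : Type
  | elt : Role L
  | tup {n : ℕ} (R : L.Relations n) : Role L
  | port {n : ℕ} (R : L.Relations n) (i : Fin n) : Role L

instance (L : FirstOrder.Language.{0, 0}) [Finite (Σ n, L.Relations n)] : Finite (Role L) := by
  refine Finite.of_surjective (α := Option ((Σ n, L.Relations n) ⊕ Σ R : (Σ n, L.Relations n), Fin R.1))
    (fun x => match x with
      | none => Role.elt
      | some (.inl R) => Role.tup R.2
      | some (.inr R) => Role.port R.1.2 R.2) ?_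
  rintro (_ | ⟨R⟩ | ⟨R, i⟩)
  · exact ⟨none, rfl⟩
  · exact ⟨some (.inl ⟨_, R⟩), rfl⟩
  · exact ⟨some (.inr ⟨⟨_, R⟩, i⟩), rfl⟩

/-- `ι` embeds the ordered structure `(M, o)` in the coloured graph `(H, lt')` as the set of the
vertices of the colour `elt`, and the relations are given by the vertices of the colours `tup R`. -/
structure Rep (L : FirstOrder.Language.{0, 0}) {D M V' : Type} [L.Structure M] (o : LinearOrder M)
    (H : CG (Role L ⊕ D) V') (lt' : V' → V' → Prop) (ι : M → V') : Prop where
  inj : Function.Injective ι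
  ran : ∀ y, H.col (.inl .elt) y ↔ ∃ x, ι x = y
  rel : ∀ {n : ℕ} (R : L.Relations n) (x : Fin n → M), RelMap R x ↔
    ∃ t, H.col (.inl (.tup R)) t ∧ ∀ i, ∃ p, H.col (.inl (.port R i)) p ∧ H.gr.Adj t p ∧
      H.gr.Adj p (ι (x i))
  ord : ∀ x y, x < y ↔ lt' (ι x) (ι y)

theorem term_var (L : FirstOrder.Language.{0, 0}) [L.IsRelational] {β : Type}
    (t : (L.sum FirstOrder.Language.order).Term β) : ∃ b, t = .var b := by
  cases t with
  | var b => exact ⟨b, rfl⟩
  | func f _ =>
    rcases f with f | f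
    · exact isEmptyElim f
    · exact isEmptyElim f

/-- the truth value of a bounded formula in the ordered structure `(M, o)`. -/
def RB (L : FirstOrder.Language.{0, 0}) {α : Type} {n : ℕ}
    (f : (L.sum FirstOrder.Language.order).BoundedFormula α n) (M : Type) [L.Structure M]
    (o : LinearOrder M) (w : α → M) (xs : Fin n → M) : Prop :=
  letI : FirstOrder.Language.order.Structure M := @orderStructure M o.toLE
  f.Realize w xs

theorem fo_tr (L : FirstOrder.Language.{0, 0}) [L.IsRelational] (D : Type) {α : Type} {n : ℕ}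
    (f : (L.sum FirstOrder.Language.order).BoundedFormula α n) :
    ∀ (γ : Type) (σ : α ⊕ Fin n → γ), ∃ g : FO (Role L ⊕ D) γ,
      ∀ (M V' : Type) [L.Structure M] (o : LinearOrder M) (H : CG (Role L ⊕ D) V')
        (lt' : V' → V' → Prop) (ι : M → V'), Rep L o H lt' ι →
        ∀ (v : γ → V') (w : α → M) (xs : Fin n → M), (∀ i, v (σ i) = ι (Sum.elim w xs i)) →
          (g.Sat H lt' v ↔ RB L f M o w xs) := by
  induction f with
  | falsum =>
    intro γ σ
    refine ⟨.neg FO.tt, ?_⟩
    intro M V' _ o H lt' ι h v w xs hv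
    exact ⟨fun h => absurd (FO.tt_sat _ _ _ _) h, fun h => h.elim⟩
  | equal t₁ t₂ =>
    intro γ σ
    obtain ⟨b₁, rfl⟩ := term_var L t₁
    obtain ⟨b₂, rfl⟩ := term_var L t₂
    refine ⟨.eq (σ b₁) (σ b₂), ?_⟩
    intro M V' _ o H lt' ι h v w xs hv
    change v (σ b₁) = v (σ b₂) ↔ Sum.elim w xs b₁ = Sum.elim w xs b₂
    rw [hv, hv, h.inj.eq_iff]
  | @rel n l R ts =>
    intro γ σ
    choose b hb using fun i => term_var L (ts i)
    rcases R with R | R
    · obtain ⟨g, hg⟩ := FO.allFin (Role L ⊕ D) (Option γ) (Fin l)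
        (fun i => .ex (.and (.col (.inl (.port R i)) none)
          (.and (.adj (some none) none) (.adj none (some (some (σ (b i)))))))) FO.tt
        (fun V G lt v => FO.tt_sat V G lt v)
      refine ⟨.ex (.and (.col (.inl (.tup R)) none) g), ?_⟩
      intro M V' _ o H lt' ι h v w xs hv
      have h1 := h.rel R fun i => Sum.elim w xs (b i)
      have h2 : RB L (BoundedFormula.rel (Sum.inl R) ts) M o w xs ↔
          RelMap R fun i => Sum.elim w xs (b i) := by
        obtain rfl : ts = fun i => .var (b i) := funext hb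
        exact Iff.rfl
      rw [h2, h1]
      refine exists_congr fun t => and_congr Iff.rfl ?_
      rw [hg]
      refine forall_congr' fun i => exists_congr fun p => and_congr Iff.rfl (and_congr Iff.rfl ?_)
      change H.gr.Adj p (v (σ (b i))) ↔ _
      rw [hv]
    · cases R
      refine ⟨.neg (.and (.neg (.eq (σ (b 0)) (σ (b 1)))) (.neg (.lt (σ (b 0)) (σ (b 1))))), ?_⟩
      intro M V' _ o H lt' ι h v w xs hv
      have h2 : RB L (BoundedFormula.rel (Sum.inr orderRel.le) ts) M o w xs ↔
          Sum.elim w xs (b 0) ≤ Sum.elim w xs (b 1) := by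
        obtain rfl : ts = fun i => .var (b i) := funext hb
        exact Iff.rfl
      rw [h2, le_iff_eq_or_lt]
      change ¬ (¬ v (σ (b 0)) = v (σ (b 1)) ∧ ¬ lt' (v (σ (b 0))) (v (σ (b 1)))) ↔ _
      rw [hv, hv, ← h.ord, h.inj.eq_iff]
      tauto
  | imp f₁ f₂ ih₁ ih₂ =>
    intro γ σ
    obtain ⟨g₁, h₁⟩ := ih₁ γ σ
    obtain ⟨g₂, h₂⟩ := ih₂ γ σ
    refine ⟨.neg (.and g₁ (.neg g₂)), ?_⟩
    intro M V' _ o H lt' ι h v w xs hv
    change ¬ (g₁.Sat H lt' v ∧ ¬ g₂.Sat H lt' v) ↔ (RB L f₁ M o w xs → RB L f₂ M o w xs)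
    rw [h₁ M V' o H lt' ι h v w xs hv, h₂ M V' o H lt' ι h v w xs hv]
    tauto
  | @all n f ih =>
    intro γ σ
    obtain ⟨g, hg⟩ := ih (Option γ) (Sum.elim (fun a => some (σ (.inl a)))
      (fun i => Fin.lastCases none (fun i => some (σ (.inr i))) i))
    refine ⟨.neg (.ex (.and (.col (.inl .elt) none) (.neg g))), ?_⟩
    intro M V' _ o H lt' ι h v w xs hv
    change ¬ (∃ y, H.col (.inl .elt) y ∧ ¬ g.Sat H lt' (ext y v)) ↔
      ∀ x : M, RB L f M o w (Fin.snoc xs x)
    have key : ∀ x : M, (g.Sat H lt' (ext (ι x) v) ↔ RB L f M o w (Fin.snoc xs x)) := by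
      intro x
      apply hg M V' o H lt' ι h (ext (ι x) v) w (Fin.snoc xs x)
      rintro (a | i)
      · exact hv (.inl a)
      · refine Fin.lastCases ?_ (fun i => ?_) i
        · simp [ext]
        · have := hv (.inr i)
          simpa [ext] using this
    constructor
    · intro h1 x
      rw [← key x]
      by_contra h2
      exact h1 ⟨ι x, (h.ran _).2 ⟨x, rfl⟩, h2⟩
    · rintro h1 ⟨y, hy, h2⟩
      obtain ⟨x, rfl⟩ := (h.ran y).1 hy
      exact h2 ((key x).2 (h1 x))

end Pool.MP_33c730_lc
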