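/-
MP_33c730_lc (helper20): the incidence graph of a relational structure.
-/
import Pool.Agent.Lib.MP_33c730_lc.Gs.Fo
import Pool.Agent.Lib.MP_33c730_lc.Dg.DegDefs

set_option autoImplicit false

namespace Pool.MP_33c730_lc

open FirstOrder.Language FirstOrder.Language.Structure

variable {L : FirstOrder.Language.{0, 0}}

/-- the length of the tuple of a vertex. -/
def Role.wd : Role L → ℕ
  | .elt => 1
  | .tup (n := n) _ => n
  | .port (n := n) _ _ => n

/-- the tuples which give a vertex. -/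
def Role.ok (M : Type) [L.Structure M] : (ρ : Role L) → (Fin ρ.wd → M) → Prop
  | .elt, _ => True
  | .tup R, u => RelMap R u
  | .port R _, u => RelMap R u

/-- kinds with tuples. -/
abbrev SV (L : FirstOrder.Language.{0, 0}) (M : Type) : Type := Σ ρ : Role L, (Fin ρ.wd → M)

/-- the vertices of the incidence graph. -/
abbrev VS (L : FirstOrder.Language.{0, 0}) (M : Type) [L.Structure M] : Type :=
  {x : SV L M // x.1.ok M x.2}

/-- the edges of the incidence graph. -/
def Dir {M : Type} (x y : SV L M) : Prop :=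
  (∃ (n : ℕ) (R : L.Relations n) (i : Fin n) (u : Fin n → M), x = ⟨.tup R, u⟩ ∧ y = ⟨.port R i, u⟩) ∨
    ∃ (n : ℕ) (R : L.Relations n) (i : Fin n) (u : Fin n → M), x = ⟨.port R i, u⟩ ∧
      y = ⟨.elt, fun _ => u i⟩

/-- the incidence graph of the structure `M` with the marked elements `w`. -/
def IncS (M : Type) [L.Structure M] {D : Type} (w : D → M) : CG (Role L ⊕ D) (VS L M) where
  gr := SimpleGraph.fromRel fun a b => Dir a.1 b.1
  col
    | .inl ρ, y => y.1.1 = ρ
    | .inr d, y => y.1 = ⟨.elt, fun _ => w d⟩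

/-- the vertex of an element. -/
def el (M : Type) [L.Structure M] (x : M) : VS L M := ⟨⟨.elt, fun _ => x⟩, trivial⟩

theorem el_inj (M : Type) [L.Structure M] : Function.Injective (el (L := L) M) := by
  intro x y h
  have h1 := congrArg Subtype.val h
  simp only [el, Sigma.mk.injEq, heq_eq_eq, true_and] at h1
  exact congrFun h1 (0 : Fin 1)

theorem dir_tup {M : Type} {n : ℕ} {R : L.Relations n} {u : Fin n → M} {y : SV L M}
    (h : Dir ⟨.tup R, u⟩ y ∨ Dir y ⟨.tup R, u⟩) : ∃ i, y = ⟨.port R i, u⟩ := by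
  rcases h with (⟨m, R', i, u', h1, h2⟩ | ⟨m, R', i, u', h1, h2⟩) |
    (⟨m, R', i, u', h1, h2⟩ | ⟨m, R', i, u', h1, h2⟩)
  · cases h1
    exact ⟨i, h2⟩
  · cases h1
  · cases h2
  · cases h2

theorem dir_elt {M : Type} {u : Fin 1 → M} {y : SV L M}
    (h : Dir ⟨.elt, u⟩ y ∨ Dir y ⟨.elt, u⟩) : ∃ (n : ℕ) (R : L.Relations n) (i : Fin n) (t : Fin n → M),
      y = ⟨.port R i, t⟩ ∧ u 0 = t i := by
  rcases h with (⟨m, R', i, u', h1, h2⟩ | ⟨m, R', i, u', h1, h2⟩) |
    (⟨m, R', i, u', h1, h2⟩ | ⟨m, R', i, u', h1, h2⟩)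
  · cases h1
  · cases h1
  · cases h2
  · simp only [Sigma.mk.injEq, heq_eq_eq, true_and] at h2
    exact ⟨m, R', i, u', h1, congrFun h2 0⟩

theorem dir_port {M : Type} {n : ℕ} {R : L.Relations n} {i : Fin n} {u : Fin n → M} {y : SV L M}
    (h : Dir ⟨.port R i, u⟩ y ∨ Dir y ⟨.port R i, u⟩) : y = ⟨.tup R, u⟩ ∨ y = ⟨.elt, fun _ => u i⟩ := by
  rcases h with (⟨m, R', j, u', h1, h2⟩ | ⟨m, R', j, u', h1, h2⟩) |
    (⟨m, R', j, u', h1, h2⟩ | ⟨m, R', j, u', h1, h2⟩)
  · cases h1
  · cases h1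
    exact Or.inr h2
  · cases h2
    exact Or.inl h1
  · cases h2

theorem incS_adj {M : Type} [L.Structure M] {D : Type} (w : D → M) (a b : VS L M) :
    (IncS M w).gr.Adj a b ↔ a ≠ b ∧ (Dir a.1 b.1 ∨ Dir b.1 a.1) := by
  unfold IncS
  simp only [SimpleGraph.fromRel_adj]

theorem incS_degenerate {M : Type} [L.Structure M] {D : Type} (w : D → M) :
    Degenerate 2 (IncS (L := L) M w).gr := by
  intro W hW
  by_cases h : ∃ x ∈ W, ∃ (n : ℕ) (R : L.Relations n) (i : Fin n) (u : Fin n → M),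
      x.1 = ⟨.port R i, u⟩
  · obtain ⟨⟨x, hx⟩, hxW, n, R, i, u, hxu⟩ := h
    obtain rfl : x = ⟨.port R i, u⟩ := hxu
    refine ⟨_, hxW, ?_⟩
    have hok : (Role.tup R).ok M u := hx
    have hsub : {y | y ∈ W ∧ (IncS (L := L) M w).gr.Adj ⟨⟨.port R i, u⟩, hx⟩ y} ⊆
        ({⟨⟨.tup R, u⟩, hok⟩, el M (u i)} : Set (VS L M)) := by
      rintro y ⟨-, hy⟩
      rw [incS_adj] at hy
      rcases dir_port hy.2 with h1 | h1
      · exact Or.inl (Subtype.ext h1)
      · exact Or.inr (Subtype.ext h1)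
    refine (Set.ncard_le_ncard hsub (Set.toFinite _)).trans ?_
    refine (Set.ncard_insert_le _ _).trans ?_
    rw [Set.ncard_singleton]
  · obtain ⟨x, hx⟩ := hW
    refine ⟨x, hx, ?_⟩
    have hempty : {y | y ∈ W ∧ (IncS (L := L) M w).gr.Adj x y} = ∅ := by
      rw [Set.eq_empty_iff_forall_notMem]
      rintro y ⟨hy, hxy⟩
      rw [incS_adj] at hxy
      have h2 := hxy.2
      rcases h2 with (⟨m, R', j, u', h1, h2⟩ | ⟨m, R', j, u', h1, h2⟩) |
        (⟨m, R', j, u', h1, h2⟩ | ⟨m, R', j, u', h1, h2⟩)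
      · exact h ⟨y, hy, m, R', j, u', h2⟩
      · exact h ⟨x, hx, m, R', j, u', h1⟩
      · exact h ⟨x, hx, m, R', j, u', h2⟩
      · exact h ⟨y, hy, m, R', j, u', h1⟩
    rw [hempty, Set.ncard_empty]
    exact Nat.zero_le _

theorem incS_rep {M : Type} [L.Structure M] {D : Type} (w : D → M) (o : LinearOrder M)
    (lt' : VS L M → VS L M → Prop) (h : ∀ x y : M, x < y ↔ lt' (el M x) (el M y)) :
    Rep L o (IncS (L := L) M w) lt' (el M) := by
  refine ⟨el_inj M, ?_, ?_, h⟩
  · rintro ⟨⟨ρ, u⟩, hu⟩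
    constructor
    · intro h1
      obtain rfl : ρ = .elt := h1
      refine ⟨u (0 : Fin 1), Subtype.ext ?_⟩
      change (⟨.elt, fun _ => u (0 : Fin 1)⟩ : SV L M) = ⟨.elt, u⟩
      congr 1
      funext i
      exact congrArg u (Subsingleton.elim (α := Fin 1) 0 i)
    · rintro ⟨x, hx⟩
      rw [← hx]
      rfl
  · intro n R x
    constructor
    · intro hR
      refine ⟨⟨⟨.tup R, x⟩, hR⟩, rfl, fun i => ⟨⟨⟨.port R i, x⟩, hR⟩, rfl, ?_, ?_⟩⟩
      · rw [incS_adj]
        refine ⟨fun h1 => ?_, Or.inl (Or.inl ⟨n, R, i, x, rfl, rfl⟩)⟩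
        have := congrArg (fun z : VS L M => z.1.1) h1
        cases this
      · rw [incS_adj]
        refine ⟨fun h1 => ?_, Or.inl (Or.inr ⟨n, R, i, x, rfl, rfl⟩)⟩
        have := congrArg (fun z : VS L M => z.1.1) h1
        cases this
    · rintro ⟨⟨⟨ρ, u⟩, hu⟩, h1, h2⟩
      obtain rfl : ρ = .tup R := h1
      have hxu : x = u := by
        funext i
        obtain ⟨⟨⟨ρ', u'⟩, hu'⟩, h3, h4, h5⟩ := h2 i
        obtain rfl : ρ' = .port R i := h3
        rw [incS_adj] at h4 h5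
        obtain ⟨j, hj⟩ := dir_tup h4.2
        obtain ⟨rfl, h6⟩ : u' = u ∧ True := by
          cases hj
          exact ⟨rfl, trivial⟩
        rcases dir_port h5.2 with h7 | h7
        · cases h7
        · have h8 : (⟨.elt, fun _ => x i⟩ : SV L M) = ⟨.elt, fun _ => u' i⟩ := h7
          simp only [Sigma.mk.injEq, heq_eq_eq, true_and] at h8
          exact congrFun h8 (0 : Fin 1)
      rw [hxu]
      exact hu

open Classical in
theorem ord_ext {M V' : Type} [Finite V'] (o : LinearOrder M) (ι : M → V')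
    (hι : Function.Injective ι) :
    ∃ lt' : V' → V' → Prop, IsStrictTotalOrder V' lt' ∧ ∀ x y : M, x < y ↔ lt' (ι x) (ι y) := by
  let e := Finite.equivFin V'
  let key : V' → Lex (WithTop M × ℕ) := fun y =>
    toLex (if h : ∃ x, ι x = y then ((h.choose : M) : WithTop M) else ⊤, (e y : ℕ))
  have hkey : ∀ x, key (ι x) = toLex ((x : WithTop M), (e (ι x) : ℕ)) := by
    intro x
    have h : ∃ x', ι x' = ι x := ⟨x, rfl⟩
    simp only [key]
    rw [dif_pos h, hι h.choose_spec]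
  have hinj : Function.Injective key := by
    intro a b hab
    have h1 := congrArg (fun z => (ofLex z).2) hab
    simp only [key, ofLex_toLex] at h1
    exact e.injective (Fin.ext h1)
  refine ⟨fun a b => key a < key b, ?_, ?_⟩
  · exact
      { trichotomous := fun a b h1 h2 => hinj (le_antisymm (not_lt.1 h2) (not_lt.1 h1))
        irrefl := fun a h => lt_irrefl _ h
        trans := fun a b c h1 h2 => lt_trans h1 h2 }
  · intro x y
    change x < y ↔ key (ι x) < key (ι y)
    rw [hkey, hkey, Prod.Lex.toLex_lt_toLex]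
    simp only [WithTop.coe_lt_coe, WithTop.coe_inj]
    constructor
    · exact Or.inl
    · rintro (h | ⟨rfl, h⟩)
      · exact h
      · exact absurd h (lt_irrefl _)

instance {M : Type} [Finite M] [L.Structure M] [Finite (Role L)] : Finite (VS L M) := by
  infer_instance

end Pool.MP_33c730_lc
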