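/-
MP_33c730_lc (helper20): MSO over the incidence graph in guarded second-order logic.
-/
import Pool.Agent.Lib.MP_33c730_lc.Gs.Inc

set_option autoImplicit false

namespace Pool.MP_33c730_lc

open FirstOrder.Language FirstOrder.Language.Structure

variable {L : FirstOrder.Language.{0, 0}}

/-- renaming of the element variables. -/
def GSO.mapE : {α α' β : Type} → (α → α') → GSO L α β → GSO L α' β
  | _, _, _, f, .eq i j => .eq (f i) (f j)
  | _, _, _, f, .rel R x => .rel R fun k => f (x k)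
  | _, _, _, f, .app X x => .app X fun k => f (x k)
  | _, _, _, f, .neg g => .neg (GSO.mapE f g)
  | _, _, _, f, .and g h => .and (GSO.mapE f g) (GSO.mapE f h)
  | _, _, _, f, .ex g => .ex (GSO.mapE (Option.map f) g)
  | _, _, _, f, .exR n g => .exR n (GSO.mapE f g)

theorem GSO.mapE_sat (M : Type) [L.Structure M] {α β : Type} (φ : GSO L α β) :
    ∀ {α' : Type} (f : α → α') (v : α' → M) (S : β → Σ n, Set (Fin n → M)),
      (GSO.mapE f φ).Sat M v S ↔ φ.Sat M (fun i => v (f i)) S := by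
  induction φ with
  | eq i j => intros; exact Iff.rfl
  | rel R x => intros; exact Iff.rfl
  | app X x => intros; exact Iff.rfl
  | neg g ih => intro α' f v S; exact not_congr (ih f v S)
  | and g h ih1 ih2 => intro α' f v S; exact and_congr (ih1 f v S) (ih2 f v S)
  | ex g ih =>
    intro α' f v S
    refine exists_congr fun x => ?_
    rw [ih, ext_comp]
  | exR n g ih =>
    intro α' f v S
    exact exists_congr fun Z => and_congr Iff.rfl (ih f v _)

/-- renaming of the relation variables. -/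
def GSO.mapR : {α β β' : Type} → (β → β') → GSO L α β → GSO L α β'
  | _, _, _, _, .eq i j => .eq i j
  | _, _, _, _, .rel R x => .rel R x
  | _, _, _, f, .app X x => .app (f X) x
  | _, _, _, f, .neg g => .neg (GSO.mapR f g)
  | _, _, _, f, .and g h => .and (GSO.mapR f g) (GSO.mapR f h)
  | _, _, _, f, .ex g => .ex (GSO.mapR f g)
  | _, _, _, f, .exR n g => .exR n (GSO.mapR (Option.map f) g)

theorem GSO.mapR_sat (M : Type) [L.Structure M] {α β : Type} (φ : GSO L α β) :
    ∀ {β' : Type} (f : β → β') (v : α → M) (S : β' → Σ n, Set (Fin n → M)),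
      (GSO.mapR f φ).Sat M v S ↔ φ.Sat M v (fun i => S (f i)) := by
  induction φ with
  | eq i j => intros; exact Iff.rfl
  | rel R x => intros; exact Iff.rfl
  | app X x => intros; exact Iff.rfl
  | neg g ih => intro β' f v S; exact not_congr (ih f v S)
  | and g h ih1 ih2 => intro β' f v S; exact and_congr (ih1 f v S) (ih2 f v S)
  | ex g ih =>
    intro β' f v S
    exact exists_congr fun x => ih f _ S
  | exR n g ih =>
    intro β' f v S
    refine exists_congr fun Z => and_congr Iff.rfl ?_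
    rw [ih, ext_comp]

/-- definable properties of structures with values of the variables. -/
def GD (L : FirstOrder.Language.{0, 0}) (α β : Type)
    (P : ∀ (M : Type) [L.Structure M], (α → M) → (β → Σ n, Set (Fin n → M)) → Prop) : Prop :=
  ∃ g : GSO L α β, ∀ (M : Type) [L.Structure M] (v : α → M) (S : β → Σ n, Set (Fin n → M)),
    g.Sat M v S ↔ P M v S

section

variable {α β : Type}
  {P Q : ∀ (M : Type) [L.Structure M], (α → M) → (β → Σ n, Set (Fin n → M)) → Prop}

theorem GD.congr (hP : GD L α β P)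
    (h : ∀ (M : Type) [L.Structure M] (v : α → M) (S : β → Σ n, Set (Fin n → M)),
      P M v S ↔ Q M v S) : GD L α β Q := by
  obtain ⟨g, hg⟩ := hP
  exact ⟨g, fun M _ v S => (hg M v S).trans (h M v S)⟩

theorem GD.not (hP : GD L α β P) : GD L α β fun M _ v S => ¬ P M v S := by
  obtain ⟨g, hg⟩ := hP
  exact ⟨.neg g, fun M _ v S => not_congr (hg M v S)⟩

theorem GD.and (hP : GD L α β P) (hQ : GD L α β Q) : GD L α β fun M _ v S => P M v S ∧ Q M v S := by
  obtain ⟨g, hg⟩ := hP
  obtain ⟨h, hh⟩ := hQ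
  exact ⟨.and g h, fun M _ v S => and_congr (hg M v S) (hh M v S)⟩

theorem GD.or (hP : GD L α β P) (hQ : GD L α β Q) : GD L α β fun M _ v S => P M v S ∨ Q M v S :=
  (hP.not.and hQ.not).not.congr fun M _ v S => by tauto

theorem GD.true : GD L α β fun _ _ _ _ => True :=
  ⟨.neg (.ex (.neg (.eq none none))), fun _ _ _ _ => ⟨fun _ => trivial, fun _ ⟨_, h⟩ => h rfl⟩⟩

theorem GD.const (p : Prop) : GD L α β fun _ _ _ _ => p := by
  by_cases hp : p
  · exact GD.true.congr fun _ _ _ _ => by simp [hp]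
  · exact GD.true.not.congr fun _ _ _ _ => by simp [hp]

theorem GD.eq (i j : α) : GD L α β fun _ _ v _ => v i = v j := ⟨.eq i j, fun _ _ _ _ => Iff.rfl⟩

theorem GD.rel {n : ℕ} (R : L.Relations n) (x : Fin n → α) :
    GD L α β fun _ _ v _ => RelMap R fun k => v (x k) := ⟨.rel R x, fun _ _ _ _ => Iff.rfl⟩

theorem GD.app {n : ℕ} (X : β) (x : Fin n → α) :
    GD L α β fun M _ v S => ∃ Z : Set (Fin n → M), S X = ⟨n, Z⟩ ∧ (fun k => v (x k)) ∈ Z :=
  ⟨.app X x, fun _ _ _ _ => Iff.rfl⟩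

theorem GD.all (ι : Type) [Finite ι]
    {P : ι → ∀ (M : Type) [L.Structure M], (α → M) → (β → Σ n, Set (Fin n → M)) → Prop}
    (h : ∀ i, GD L α β (P i)) : GD L α β fun M _ v S => ∀ i, P i M v S := by
  refine Finite.induction_empty_option (P := fun ι : Type =>
    ∀ P : ι → ∀ (M : Type) [L.Structure M], (α → M) → (β → Σ n, Set (Fin n → M)) → Prop,
      (∀ i, GD L α β (P i)) → GD L α β fun M _ v S => ∀ i, P i M v S) ?_ ?_ ?_ ι P h
  · intro κ κ' e h P hP
    refine (h (fun a => P (e a)) fun a => hP (e a)).congr fun M _ v S => ?_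
    rw [e.forall_congr_left]
    simp
  · intro P _
    exact GD.true.congr fun M _ v S => ⟨fun _ i => i.elim, fun _ => trivial⟩
  · intro κ _ h P hP
    refine ((hP none).and (h (fun a => P (some a)) fun a => hP (some a))).congr fun M _ v S => ?_
    rw [Option.forall]

theorem GD.any (ι : Type) [Finite ι]
    {P : ι → ∀ (M : Type) [L.Structure M], (α → M) → (β → Σ n, Set (Fin n → M)) → Prop}
    (h : ∀ i, GD L α β (P i)) : GD L α β fun M _ v S => ∃ i, P i M v S :=
  (GD.all ι fun i => (h i).not).not.congr fun M _ v S => by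
    rw [not_forall]
    exact exists_congr fun i => not_not

end

theorem GD.mapE {α α' β : Type}
    {P : ∀ (M : Type) [L.Structure M], (α → M) → (β → Σ n, Set (Fin n → M)) → Prop}
    (hP : GD L α β P) (f : α → α') : GD L α' β fun M _ v S => P M (fun i => v (f i)) S := by
  obtain ⟨g, hg⟩ := hP
  exact ⟨GSO.mapE f g, fun M _ v S => by rw [GSO.mapE_sat, hg]⟩

theorem GD.mapR {α β β' : Type}
    {P : ∀ (M : Type) [L.Structure M], (α → M) → (β → Σ n, Set (Fin n → M)) → Prop}
    (hP : GD L α β P) (f : β → β') : GD L α β' fun M _ v S => P M v (fun i => S (f i)) := by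
  obtain ⟨g, hg⟩ := hP
  exact ⟨GSO.mapR f g, fun M _ v S => by rw [GSO.mapR_sat, hg]⟩

/-- a block of element quantifiers. -/
theorem GD.ex (ι : Type) [Finite ι] : ∀ (α β : Type)
    (P : ∀ (M : Type) [L.Structure M], (α ⊕ ι → M) → (β → Σ n, Set (Fin n → M)) → Prop),
    GD L (α ⊕ ι) β P → GD L α β fun M _ v S => ∃ u : ι → M, P M (Sum.elim v u) S := by
  refine Finite.induction_empty_option (P := fun ι : Type => ∀ (α β : Type)
    (P : ∀ (M : Type) [L.Structure M], (α ⊕ ι → M) → (β → Σ n, Set (Fin n → M)) → Prop),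
    GD L (α ⊕ ι) β P → GD L α β fun M _ v S => ∃ u : ι → M, P M (Sum.elim v u) S) ?_ ?_ ?_ ι
  · intro κ κ' e h α β P hP
    refine (h α β _ (hP.mapE (Sum.map id e.symm))).congr fun M _ v S => ?_
    constructor
    · rintro ⟨u, hu⟩
      refine ⟨fun b => u (e.symm b), ?_⟩
      convert hu using 1
      funext i
      rcases i with i | i <;> rfl
    · rintro ⟨u, hu⟩
      refine ⟨fun a => u (e a), ?_⟩
      convert hu using 1
      funext i
      rcases i with i | i
      · rfl
      · simp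
  · intro α β P hP
    refine (hP.mapE (Sum.elim id PEmpty.elim)).congr fun M _ v S => ?_
    constructor
    · intro h
      refine ⟨PEmpty.elim, ?_⟩
      convert h using 1
      funext i
      rcases i with i | i
      · rfl
      · exact i.elim
    · rintro ⟨u, hu⟩
      convert hu using 1
      funext i
      rcases i with i | i
      · rfl
      · exact i.elim
  · intro κ _ h α β P hP
    obtain ⟨g', hg'⟩ := h (Option α) β _ (hP.mapE (Sum.elim (fun c => .inl (some c))
      (fun a => match a with | none => .inl none | some a => .inr a)))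
    refine ⟨.ex g', fun M _ v S => ?_⟩
    change (∃ x, g'.Sat M (ext x v) S) ↔ _
    constructor
    · rintro ⟨x, hx⟩
      rw [hg'] at hx
      obtain ⟨u, hu⟩ := hx
      refine ⟨ext x u, ?_⟩
      convert hu using 1
      funext i
      rcases i with i | i | i <;> rfl
    · rintro ⟨u, hu⟩
      refine ⟨u none, ?_⟩
      rw [hg']
      refine ⟨fun a => u (some a), ?_⟩
      convert hu using 1
      funext i
      rcases i with i | i | i <;> rfl

/-- a block of relation quantifiers. -/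
theorem GD.exR (ι : Type) [Finite ι] : ∀ (w : ι → ℕ) (α β : Type)
    (P : ∀ (M : Type) [L.Structure M], (α → M) → (β ⊕ ι → Σ n, Set (Fin n → M)) → Prop),
    GD L α (β ⊕ ι) P → GD L α β fun M _ v S => ∃ Z : ∀ i, Set (Fin (w i) → M),
      (∀ i, ∀ t ∈ Z i, Guarded L t) ∧ P M v (Sum.elim S fun i => ⟨w i, Z i⟩) := by
  refine Finite.induction_empty_option (P := fun ι : Type => ∀ (w : ι → ℕ) (α β : Type)
    (P : ∀ (M : Type) [L.Structure M], (α → M) → (β ⊕ ι → Σ n, Set (Fin n → M)) → Prop),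
    GD L α (β ⊕ ι) P → GD L α β fun M _ v S => ∃ Z : ∀ i, Set (Fin (w i) → M),
      (∀ i, ∀ t ∈ Z i, Guarded L t) ∧ P M v (Sum.elim S fun i => ⟨w i, Z i⟩)) ?_ ?_ ?_ ι
  · intro κ κ' e h w α β P hP
    refine (h (fun a => w (e a)) α β _ (hP.mapR (Sum.map id e.symm))).congr fun M _ v S => ?_
    constructor
    · rintro ⟨Z, hZ, hu⟩
      have key : ∀ b, (⟨w b, (e.apply_symm_apply b) ▸ Z (e.symm b)⟩ : Σ n, Set (Fin n → M)) =
          ⟨w (e (e.symm b)), Z (e.symm b)⟩ := by
        intro b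
        generalize_proofs h
        revert h
        generalize e.symm b = a
        rintro rfl
        rfl
      refine ⟨fun b => (e.apply_symm_apply b) ▸ Z (e.symm b), ?_, ?_⟩
      · intro b
        have h1 : ∀ t ∈ (⟨w b, (e.apply_symm_apply b) ▸ Z (e.symm b)⟩ : Σ n, Set (Fin n → M)).2,
            Guarded L t := by
          rw [key b]
          exact hZ (e.symm b)
        exact h1
      · convert hu using 1
        funext i
        rcases i with i | i
        · rfl
        · exact key i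
    · rintro ⟨Z, hZ, hu⟩
      refine ⟨fun a => Z (e a), fun a => hZ (e a), ?_⟩
      convert hu using 1
      funext i
      rcases i with i | i
      · rfl
      · change (⟨w (e (e.symm i)), Z (e (e.symm i))⟩ : Σ n, Set (Fin n → M)) = ⟨w i, Z i⟩
        rw [e.apply_symm_apply]
  · intro w α β P hP
    refine (hP.mapR (Sum.elim id PEmpty.elim)).congr fun M _ v S => ?_
    constructor
    · intro h
      refine ⟨fun i => i.elim, fun i => i.elim, ?_⟩
      convert h using 1
      funext i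
      rcases i with i | i
      · rfl
      · exact i.elim
    · rintro ⟨Z, _, hu⟩
      convert hu using 1
      funext i
      rcases i with i | i
      · rfl
      · exact i.elim
  · intro κ _ h w α β P hP
    obtain ⟨g', hg'⟩ := h (fun a => w (some a)) α (Option β) _
      (hP.mapR (Sum.elim (fun c => .inl (some c))
        (fun a => match a with | none => .inl none | some a => .inr a)))
    refine ⟨.exR (w none) g', fun M _ v S => ?_⟩
    change (∃ Z : Set (Fin (w none) → M), (∀ t ∈ Z, Guarded L t) ∧ g'.Sat M v (ext ⟨w none, Z⟩ S)) ↔ _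
    constructor
    · rintro ⟨Z, hZ, hx⟩
      rw [hg'] at hx
      obtain ⟨Z', hZ', hu⟩ := hx
      refine ⟨fun a => match a with | none => Z | some a => Z' a, ?_, ?_⟩
      · rintro (_ | a)
        · exact hZ
        · exact hZ' a
      · convert hu using 1
        funext i
        rcases i with i | i | i <;> rfl
    · rintro ⟨Z, hZ, hu⟩
      refine ⟨Z none, hZ none, ?_⟩
      rw [hg']
      refine ⟨fun a => Z (some a), fun a => hZ (some a), ?_⟩
      convert hu using 1
      funext i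
      rcases i with i | i | i <;> rfl

/-! ### the atoms -/

theorem gd_eq {α' β' : Type} (ρ ρ' : Role L) (s : Fin ρ.wd → α') (s' : Fin ρ'.wd → α') :
    GD L α' β' fun M _ v _ => (⟨ρ, fun k => v (s k)⟩ : SV L M) = ⟨ρ', fun k => v (s' k)⟩ := by
  by_cases h : ρ = ρ'
  · subst h
    refine (GD.all (Fin ρ.wd) fun k => GD.eq (s k) (s' k)).congr fun M _ v S => ?_
    simp only [Sigma.mk.injEq, heq_eq_eq, true_and]
    exact ⟨fun h => funext h, fun h => congrFun h⟩
  · refine (GD.const False).congr fun M _ v S => ⟨False.elim, fun h1 => h ?_⟩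
    exact congrArg Sigma.fst h1

theorem gd_dir {α' β' : Type} (ρ ρ' : Role L) (s : Fin ρ.wd → α') (s' : Fin ρ'.wd → α') :
    GD L α' β' fun M _ v _ => Dir (⟨ρ, fun k => v (s k)⟩ : SV L M) ⟨ρ', fun k => v (s' k)⟩ := by
  cases ρ with
  | elt =>
    refine (GD.const False).congr fun M _ v S => ⟨False.elim, ?_⟩
    rintro (⟨m, R', i, u', h1, h2⟩ | ⟨m, R', i, u', h1, h2⟩)
    · cases h1
    · cases h1
  | @tup n R =>
    refine (GD.any (Fin n) fun i => gd_eq ρ' (.port R i) s' s).congr fun M _ v S => ?_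
    constructor
    · rintro ⟨i, hi⟩
      exact Or.inl ⟨n, R, i, fun k => v (s k), rfl, hi⟩
    · rintro (⟨m, R', i, u', h1, h2⟩ | ⟨m, R', i, u', h1, h2⟩)
      · cases h1
        exact ⟨i, h2⟩
      · cases h1
  | @port n R i =>
    refine (gd_eq ρ' .elt s' (fun _ => s i)).congr fun M _ v S => ?_
    constructor
    · intro h
      exact Or.inr ⟨n, R, i, fun k => v (s k), rfl, h⟩
    · rintro (⟨m, R', j, u', h1, h2⟩ | ⟨m, R', j, u', h1, h2⟩)
      · cases h1
      · cases h1
        exact h2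

theorem gd_ok {α' β' : Type} (ρ : Role L) (s : Fin ρ.wd → α') :
    GD L α' β' fun M _ v _ => ρ.ok M fun k => v (s k) := by
  cases ρ with
  | elt => exact GD.true
  | tup R => exact GD.rel R s
  | port R i => exact GD.rel R s

theorem ok_guarded {M : Type} [L.Structure M] (ρ : Role L) (u : Fin ρ.wd → M) (h : ρ.ok M u) :
    Guarded L u := by
  cases ρ with
  | elt =>
    exact Or.inl ⟨u (0 : Fin 1), fun i => congrArg u (Subsingleton.elim (α := Fin 1) i 0)⟩
  | @tup n R => exact Or.inr ⟨n, R, u, h, le_rfl⟩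
  | @port n R i => exact Or.inr ⟨n, R, u, h, le_rfl⟩

/-! ### the translation -/

/-- the part of a set of vertices which belongs to the kind `ρ`. -/
def part {M : Type} [L.Structure M] (X : Set (VS L M)) (ρ : Role L) : Set (Fin ρ.wd → M) :=
  {u | ∃ h : ρ.ok M u, (⟨⟨ρ, u⟩, h⟩ : VS L M) ∈ X}

theorem mso_tr [Finite (Role L)] (D : Type) {α β : Type} (f : MSO (Role L ⊕ D) α β) :
    ∀ (α' β' : Type) (κ : α → Role L) (σ : ∀ a, Fin (κ a).wd → α') (π : D → α')
      (τ : β → Role L → β'), ∃ g : GSO L α' β', ∀ (M : Type) [L.Structure M] (v' : α' → M)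
      (S' : β' → Σ n, Set (Fin n → M)) (v : α → VS L M) (S : β → Set (VS L M)),
      (∀ a, (v a).1 = ⟨κ a, fun k => v' (σ a k)⟩) →
      (∀ Y ρ, S' (τ Y ρ) = ⟨ρ.wd, part (S Y) ρ⟩) →
      (g.Sat M v' S' ↔ f.Sat (IncS M fun d => v' (π d)) v S) := by
  induction f with
  | eq i j =>
    intro α' β' κ σ π τ
    obtain ⟨g, hg⟩ := gd_eq (α' := α') (β' := β') (κ i) (κ j) (σ i) (σ j)
    refine ⟨g, fun M _ v' S' v S hv hS => ?_⟩
    rw [hg]
    beta_reduce
    rw [← hv, ← hv]
    exact Subtype.ext_iff.symm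
  | adj i j =>
    intro α' β' κ σ π τ
    obtain ⟨g, hg⟩ := ((gd_eq (α' := α') (β' := β') (κ i) (κ j) (σ i) (σ j)).not).and
      ((gd_dir (κ i) (κ j) (σ i) (σ j)).or (gd_dir (κ j) (κ i) (σ j) (σ i)))
    refine ⟨g, fun M _ v' S' v S hv hS => ?_⟩
    rw [hg]
    beta_reduce
    rw [← hv, ← hv]
    change _ ↔ (IncS M fun d => v' (π d)).gr.Adj (v i) (v j)
    rw [incS_adj, Ne, Subtype.ext_iff]
  | col c i =>
    intro α' β' κ σ π τ
    rcases c with ρ | d
    · obtain ⟨g, hg⟩ := GD.const (L := L) (α := α') (β := β') (κ i = ρ)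
      refine ⟨g, fun M _ v' S' v S hv hS => ?_⟩
      rw [hg]
      change _ ↔ (v i).1.1 = ρ
      rw [hv]
    · obtain ⟨g, hg⟩ := gd_eq (α' := α') (β' := β') (κ i) .elt (σ i) (fun _ => π d)
      refine ⟨g, fun M _ v' S' v S hv hS => ?_⟩
      rw [hg]
      beta_reduce
      rw [← hv]
      exact Iff.rfl
  | mem i X =>
    intro α' β' κ σ π τ
    refine ⟨.app (τ X (κ i)) (σ i), fun M _ v' S' v S hv hS => ?_⟩
    change (∃ Z : Set (Fin (κ i).wd → M), S' (τ X (κ i)) = ⟨(κ i).wd, Z⟩ ∧ (fun k => v' (σ i k)) ∈ Z) ↔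
      v i ∈ S X
    rw [hS]
    constructor
    · rintro ⟨Z, h1, h2⟩
      simp only [Sigma.mk.injEq, heq_eq_eq, true_and] at h1
      rw [← h1] at h2
      obtain ⟨h3, h4⟩ := h2
      convert h4 using 1
      exact Subtype.ext (hv i)
    · intro h
      refine ⟨_, rfl, ?_⟩
      have h1 : (κ i).ok M fun k => v' (σ i k) := by
        have h2 := (v i).2
        rw [hv] at h2
        exact h2
      refine ⟨h1, ?_⟩
      convert h using 1
      exact Subtype.ext (hv i).symm
  | neg f ih =>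
    intro α' β' κ σ π τ
    obtain ⟨g, hg⟩ := ih α' β' κ σ π τ
    exact ⟨.neg g, fun M _ v' S' v S hv hS => not_congr (hg M v' S' v S hv hS)⟩
  | and f₁ f₂ ih₁ ih₂ =>
    intro α' β' κ σ π τ
    obtain ⟨g₁, h₁⟩ := ih₁ α' β' κ σ π τ
    obtain ⟨g₂, h₂⟩ := ih₂ α' β' κ σ π τ
    exact ⟨.and g₁ g₂, fun M _ v' S' v S hv hS =>
      and_congr (h₁ M v' S' v S hv hS) (h₂ M v' S' v S hv hS)⟩
  | @ex α β f ih =>
    intro α' β' κ σ π τ
    have h1 : ∀ ρ : Role L, ∃ g : GSO L (α' ⊕ Fin ρ.wd) β', ∀ (M : Type) [L.Structure M]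
        (v' : α' → M) (S' : β' → Σ n, Set (Fin n → M)) (v : α → VS L M) (S : β → Set (VS L M))
        (u : Fin ρ.wd → M) (hu : ρ.ok M u),
        (∀ a, (v a).1 = ⟨κ a, fun k => v' (σ a k)⟩) →
        (∀ Y ρ, S' (τ Y ρ) = ⟨ρ.wd, part (S Y) ρ⟩) →
        (g.Sat M (Sum.elim v' u) S' ↔
          f.Sat (IncS M fun d => v' (π d)) (ext ⟨⟨ρ, u⟩, hu⟩ v) S) := by
      intro ρ
      obtain ⟨g, hg⟩ := ih (α' ⊕ Fin ρ.wd) β' (fun a => match a with | none => ρ | some a => κ a)
        (fun a => match a with | none => fun k => .inr k | some a => fun k => .inl (σ a k))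
        (fun d => .inl (π d)) τ
      refine ⟨g, fun M _ v' S' v S u hu hv hS => ?_⟩
      refine hg M (Sum.elim v' u) S' (ext ⟨⟨ρ, u⟩, hu⟩ v) S ?_ hS
      rintro (_ | a)
      · rfl
      · exact hv a
    choose gf hgf using h1
    obtain ⟨g, hg⟩ := GD.any (Role L) fun ρ => GD.ex (L := L) (Fin ρ.wd) α' β' _
      (((gd_ok ρ (fun k => (Sum.inr k : α' ⊕ Fin ρ.wd))).and
        ⟨gf ρ, fun M _ v S => Iff.rfl⟩ :
        GD L (α' ⊕ Fin ρ.wd) β' fun M _ v S => (ρ.ok M fun k => v (Sum.inr k)) ∧ (gf ρ).Sat M v S))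
    refine ⟨g, fun M _ v' S' v S hv hS => ?_⟩
    rw [hg]
    constructor
    · rintro ⟨ρ, u, hu, h2⟩
      have hu' : ρ.ok M u := hu
      exact ⟨⟨⟨ρ, u⟩, hu'⟩, (hgf ρ M v' S' v S u hu' hv hS).1 h2⟩
    · rintro ⟨⟨⟨ρ, u⟩, hu⟩, h2⟩
      exact ⟨ρ, u, hu, (hgf ρ M v' S' v S u hu hv hS).2 h2⟩
  | @exS α β f ih =>
    intro α' β' κ σ π τ
    obtain ⟨g₀, hg₀⟩ := ih α' (β' ⊕ Role L) κ σ π
      (fun Y ρ => match Y with | none => .inr ρ | some Y => .inl (τ Y ρ))
    have h1 : GD L α' (β' ⊕ Role L) fun M _ v S =>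
        (∀ ρ : Role L, ¬ ∃ u : Fin ρ.wd → M, (∃ Z : Set (Fin ρ.wd → M), S (.inr ρ) = ⟨ρ.wd, Z⟩ ∧
          u ∈ Z) ∧ ¬ ρ.ok M u) ∧ g₀.Sat M v S := by
      refine GD.and (GD.all (Role L) fun ρ => GD.not ?_) ⟨g₀, fun M _ v S => Iff.rfl⟩
      exact GD.ex (L := L) (Fin ρ.wd) α' (β' ⊕ Role L) _
        ((GD.app (.inr ρ) (fun k => (Sum.inr k : α' ⊕ Fin ρ.wd))).and
          (gd_ok ρ (fun k => (Sum.inr k : α' ⊕ Fin ρ.wd))).not)
    obtain ⟨g, hg⟩ := GD.exR (L := L) (Role L) Role.wd α' β' _ h1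
    refine ⟨g, fun M _ v' S' v S hv hS => ?_⟩
    rw [hg]
    have key : ∀ X : Set (VS L M), (g₀.Sat M v' (Sum.elim S' fun ρ => ⟨ρ.wd, part X ρ⟩) ↔
        f.Sat (IncS M fun d => v' (π d)) v (ext X S)) := by
      intro X
      refine hg₀ M v' _ v (ext X S) hv ?_
      rintro (_ | Y) ρ
      · rfl
      · exact hS Y ρ
    constructor
    · rintro ⟨Z, hZ, h2, h3⟩
      have h4 : ∀ ρ : Role L, Z ρ = part {x : VS L M | x.1.2 ∈ Z x.1.1} ρ := by
        intro ρ
        ext u
        constructor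
        · intro hu
          have hok : ρ.ok M u := by
            by_contra hok
            exact h2 ρ ⟨u, ⟨Z ρ, rfl, hu⟩, hok⟩
          exact ⟨hok, hu⟩
        · rintro ⟨hok, hu⟩
          exact hu
      have h5 : (fun ρ => (⟨ρ.wd, part {x : VS L M | x.1.2 ∈ Z x.1.1} ρ⟩ : Σ n, Set (Fin n → M))) =
          fun ρ => ⟨ρ.wd, Z ρ⟩ := funext fun ρ => by rw [← h4 ρ]
      refine ⟨{x : VS L M | x.1.2 ∈ Z x.1.1}, ?_⟩
      rw [← key, h5]
      exact h3
    · rintro ⟨X, hX⟩
      refine ⟨fun ρ => part X ρ, ?_, ?_, (key X).2 hX⟩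
      · rintro ρ t ⟨hok, -⟩
        exact ok_guarded ρ t hok
      · rintro ρ ⟨u, ⟨Z, h2, h3⟩, h4⟩
        have h5 : (⟨ρ.wd, part X ρ⟩ : Σ n, Set (Fin n → M)) = ⟨ρ.wd, Z⟩ := h2
        simp only [Sigma.mk.injEq, heq_eq_eq, true_and] at h5
        rw [← h5] at h3
        exact h4 h3.1

end Pool.MP_33c730_lc
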