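/-
MP_33c730_lc (helper20): order-invariant first-order queries are definable in guarded second-order
logic.
-/
import Pool.Agent.Lib.MP_33c730_lc.Gs.Tr
import Pool.Agent.Lib.MP_33c730_lc.Dg.Main2

set_option autoImplicit false

namespace Pool.MP_33c730_lc

open FirstOrder.Language FirstOrder.Language.Structure

/-- the relational structure defined in a coloured graph. -/
private theorem gs_struct (L : FirstOrder.Language.{0, 0}) [L.IsRelational] {D V' : Type}
    (H : CG (Role L ⊕ D) V') : ∃ _ : L.Structure {x // H.col (.inl .elt) x},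
      ∀ (r : V' → V' → Prop), IsStrictTotalOrder V' r →
        ∃ o : LinearOrder {x // H.col (.inl .elt) x}, Rep L o H r Subtype.val := by
  classical
  let inst : L.Structure {x // H.col (.inl .elt) x} :=
    { funMap := fun f => isEmptyElim f
      RelMap := fun {n} R x => ∃ t, H.col (.inl (.tup R)) t ∧ ∀ i, ∃ p,
        H.col (.inl (.port R i)) p ∧ H.gr.Adj t p ∧ H.gr.Adj p (x i).1 }
  refine ⟨inst, fun r hr => ?_⟩
  have hsto : IsStrictTotalOrder {x // H.col (.inl .elt) x} fun x y => r x.1 y.1 :=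
    { trichotomous := fun a b h1 h2 => Subtype.ext (hr.trichotomous a.1 b.1 h1 h2)
      irrefl := fun a h => hr.irrefl a.1 h
      trans := fun a b c h1 h2 => hr.trans a.1 b.1 c.1 h1 h2 }
  refine ⟨linearOrderOfSTO fun x y : {x // H.col (.inl .elt) x} => r x.1 y.1, ?_, ?_, ?_, ?_⟩
  · exact Subtype.val_injective
  · exact fun y => ⟨fun hy => ⟨⟨y, hy⟩, rfl⟩, fun ⟨x, hx⟩ => hx ▸ x.2⟩
  · intro n R x
    exact Iff.rfl
  · intro x y
    exact Iff.rfl

theorem main_gso (L : FirstOrder.Language.{0, 0}) [L.IsRelational] [Finite (Σ n, L.Relations n)]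
    (α : Type) [Finite α] (φ : (L.sum FirstOrder.Language.order).Formula α) (hφ : OrdInv L φ) :
    ∃ ψ : GSO L α Empty, ∀ (M : Type) [Finite M] [L.Structure M] (o : LinearOrder M) (v : α → M),
      ψ.Sat M v Empty.elim ↔ RealizeO L φ M o v := by
  obtain ⟨g, hg⟩ := fo_tr L α φ α (Sum.elim id Fin.elim0)
  -- the sentence
  obtain ⟨c, hc⟩ := FO.allFin (Role L ⊕ α) (Empty ⊕ α) α
    (fun a => .and (.col (.inr a) (.inr a)) (.col (.inl .elt) (.inr a))) FO.tt
    (fun V G lt v => FO.tt_sat V G lt v)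
  obtain ⟨g₂, hg₂⟩ := FO.exBlock (Role L ⊕ α) α Empty (.and c (FO.map Sum.inr g))
  have hs : ∀ (V' : Type) (H : CG (Role L ⊕ α) V') (lt : V' → V' → Prop),
      g₂.Sat H lt Empty.elim ↔ ∃ u : α → V', (∀ a, H.col (.inr a) (u a) ∧ H.col (.inl .elt) (u a)) ∧
        g.Sat H lt u := by
    intro V' H lt
    rw [hg₂]
    refine exists_congr fun u => ?_
    change c.Sat H lt _ ∧ (FO.map Sum.inr g).Sat H lt _ ↔ _
    rw [hc, FO.map_sat]
    exact Iff.rfl
  have hinv : OrderInvariant g₂ := by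
    intro V' _ H r₁ r₂ h₁ h₂
    rw [hs, hs]
    obtain ⟨inst, hrep⟩ := gs_struct L H
    obtain ⟨o₁, hR₁⟩ := hrep r₁ h₁
    obtain ⟨o₂, hR₂⟩ := hrep r₂ h₂
    refine exists_congr fun u => and_congr_right fun hu => ?_
    have e₁ := hg _ V' o₁ H r₁ Subtype.val hR₁ u (fun a => ⟨u a, (hu a).2⟩) default (by
      rintro (a | i)
      · rfl
      · exact i.elim0)
    have e₂ := hg _ V' o₂ H r₂ Subtype.val hR₂ u (fun a => ⟨u a, (hu a).2⟩) default (by
      rintro (a | i)
      · rfl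
      · exact i.elim0)
    rw [e₁, e₂]
    exact hφ _ o₁ o₂ _
  obtain ⟨ψ₀, hψ₀⟩ := main_degenerate (Role L ⊕ α) 2 g₂ hinv
  obtain ⟨ψ, hψ⟩ := mso_tr (L := L) α ψ₀ α Empty Empty.elim (fun a => a.elim) id
    (fun Y _ => Y.elim)
  refine ⟨ψ, fun M _ _ o v => ?_⟩
  rw [hψ M v Empty.elim Empty.elim Empty.elim (fun a => a.elim) (fun Y => Y.elim)]
  obtain ⟨lt', h1, h2⟩ := ord_ext o (el (L := L) M) (el_inj M)
  rw [hψ₀ _ _ (incS_degenerate _) lt' h1, hs]
  have e := hg M (VS L M) o (IncS (L := L) M v) lt' (el M) (incS_rep v o lt' h2)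
    (fun a => el M (v a)) v default (by
      rintro (a | i)
      · rfl
      · exact i.elim0)
  constructor
  · rintro ⟨u, hu, h3⟩
    obtain rfl : u = fun a => el M (v a) := funext fun a => Subtype.ext (hu a).1
    exact e.1 h3
  · intro h
    exact ⟨fun a => el M (v a), fun a => ⟨rfl, rfl⟩, e.2 h⟩

end Pool.MP_33c730_lc
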